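import Pool.Agent.H98.RFZ.Targets
import Pool.Agent.H98.RFC.Targets

/-!
Row MB of the board rfz_modules: monotonicity of the extremal ground states in the boundary
condition.
-/

set_option autoImplicit false

open MeasureTheory ProbabilityTheory

namespace Pool.Agent.H33.RFZ

open Pool.Agent.H98.RFC Pool.Agent.H98.RFZ

theorem mb_aux (hSUB : T_SUB) {R : ℕ} {J : Site → ℝ} (hJ : IsCoupling R J) (h : Site → ℝ)
    (Λ : Finset Site) (B₁ B₂ : Set Site) (hB : B₁ ⊆ B₂)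
    (h2 : Disjoint B₂ (Λ : Set Site)) (S₁ S₂ : Finset Site) (hS₁ : S₁ ∈ gs R J h Λ B₁)
    (hS₂ : S₂ ∈ gs R J h Λ B₂) : S₁ ∪ S₂ ∈ gs R J h Λ B₂ ∧ S₁ ∩ S₂ ∈ gs R J h Λ B₁ := by
  classical
  unfold gs at hS₁ hS₂ ⊢
  rw [Finset.mem_filter, Finset.mem_powerset] at hS₁ hS₂
  obtain ⟨hs1, hm1⟩ := hS₁
  obtain ⟨hs2, hm2⟩ := hS₂
  rw [Finset.mem_filter, Finset.mem_powerset, Finset.mem_filter, Finset.mem_powerset]
  have hi : (↑S₁ ∪ B₁) ∩ (↑S₂ ∪ B₂) = (↑(S₁ ∩ S₂) : Set Site) ∪ B₁ := by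
    ext x
    simp only [Set.mem_inter_iff, Set.mem_union, Finset.mem_coe, Finset.coe_inter]
    constructor
    · rintro ⟨ha | ha, hb | hb⟩
      · exact Or.inl ⟨ha, hb⟩
      · exact absurd (hs1 ha) (fun hx => Set.disjoint_left.1 h2 hb hx)
      · exact Or.inr ha
      · exact Or.inr ha
    · rintro (⟨ha, hb⟩ | ha)
      · exact ⟨Or.inl ha, Or.inl hb⟩
      · exact ⟨Or.inr ha, Or.inr (hB ha)⟩
  have hu : (↑S₁ ∪ B₁) ∪ (↑S₂ ∪ B₂) = (↑(S₁ ∪ S₂) : Set Site) ∪ B₂ := by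
    ext x
    simp only [Set.mem_union, Finset.mem_coe, Finset.coe_union]
    constructor
    · rintro ((ha | ha) | (ha | ha))
      · exact Or.inl (Or.inl ha)
      · exact Or.inr (hB ha)
      · exact Or.inl (Or.inr ha)
      · exact Or.inr ha
    · rintro ((ha | ha) | ha)
      · exact Or.inl (Or.inl ha)
      · exact Or.inr (Or.inl ha)
      · exact Or.inr (Or.inr ha)
  have hsub := hSUB R J hJ h Λ (↑S₁ ∪ B₁) (↑S₂ ∪ B₂)
  rw [hi, hu] at hsub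
  have hc1 := hm1 (S₁ ∩ S₂) (Finset.mem_powerset.2 (Finset.inter_subset_left.trans hs1))
  have hc2 := hm2 (S₁ ∪ S₂) (Finset.mem_powerset.2 (Finset.union_subset hs1 hs2))
  refine ⟨⟨Finset.union_subset hs1 hs2, fun S' hS' => ?_⟩,
    ⟨Finset.inter_subset_left.trans hs1, fun S' hS' => ?_⟩⟩
  · have := hm2 S' hS'
    linarith
  · have := hm1 S' hS'
    linarith

theorem pf_MB (hSUB : T_SUB) (hLAT : Z_LAT) : Z_MB := by
  intro R J hJ h Λ B₁ B₂ hB h1 h2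
  obtain ⟨-, gp1, gn1, ex1⟩ := hLAT R J hJ h Λ B₁ h1
  obtain ⟨-, gp2, gn2, ex2⟩ := hLAT R J hJ h Λ B₂ h2
  refine ⟨?_, ?_⟩
  · have h3 := (mb_aux hSUB hJ h Λ B₁ B₂ hB h2 _ _ gp1 gp2).1
    exact Finset.subset_union_left.trans (ex2 _ h3).2
  · have h3 := (mb_aux hSUB hJ h Λ B₁ B₂ hB h2 _ _ gn1 gn2).2
    exact (ex1 _ h3).1.trans Finset.inter_subset_right

end Pool.Agent.H33.RFZ
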